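import Mathlib

/-!
# CY-6b: transport of points

Functions of the generic point `(s, u)` of the curve `u ^ 2 = q(s)`, specialised at one of
infinitely many rational points.
-/

set_option autoImplicit false

namespace Pool.Agent.Helper95.CY

open Polynomial

section ring

variable {L : Type} [Field L] (q : L[X])

/-- the equation of the curve over the polynomials in `s` -/
noncomputable def cf : (L[X])[X] := X ^ 2 - C q

lemma cf_monic : (cf q).Monic := monic_X_pow_sub_C q two_ne_zero

lemma cf_natDegree : (cf q).natDegree = 2 := natDegree_X_pow_sub_C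

/-- the coordinate ring of the curve -/
abbrev CE : Type := AdjoinRoot (cf q)

/-- evaluation at a point -/
noncomputable def ev (T : Type) [CommRing T] [Algebra L T] (s u : T)
    (hu : u ^ 2 = aeval s q) : CE q →ₐ[L] T :=
  AdjoinRoot.liftAlgHom (cf q) (aeval s) u (by
    rw [cf, eval₂_sub, eval₂_pow, eval₂_X, eval₂_C]
    simp [hu])

lemma ev_of (T : Type) [CommRing T] [Algebra L T] (s u : T)
    (hu : u ^ 2 = aeval s q) (r : L[X]) :
    ev q T s u hu (AdjoinRoot.of (cf q) r) = aeval s r := by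
  unfold ev
  rw [AdjoinRoot.liftAlgHom_of]

lemma ev_root (T : Type) [CommRing T] [Algebra L T] (s u : T)
    (hu : u ^ 2 = aeval s q) :
    ev q T s u hu (AdjoinRoot.root (cf q)) = u := by
  unfold ev
  rw [AdjoinRoot.liftAlgHom_root]

variable {q}

/-- a separable polynomial of positive degree is not a square of a fraction -/
lemma sq_ne (hq : q.Separable) (h1 : 1 ≤ q.natDegree) (r0 r1 : L[X])
    (h : r0 ^ 2 = r1 ^ 2 * q) : r1 = 0 := by
  by_contra hr1
  have hq0 : q ≠ 0 := hq.ne_zero
  have hinj : Function.Injective (algebraMap L (AlgebraicClosure L)) :=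
    (algebraMap L (AlgebraicClosure L)).injective
  have hdeg : (q.map (algebraMap L (AlgebraicClosure L))).degree ≠ 0 := by
    rw [degree_map, degree_eq_natDegree hq0]
    intro h0
    have : q.natDegree = 0 := by exact_mod_cast h0
    omega
  obtain ⟨α, hα⟩ := IsAlgClosed.exists_root _ hdeg
  have hsep : (q.map (algebraMap L (AlgebraicClosure L))).Separable := hq.map
  have hqm0 : q.map (algebraMap L (AlgebraicClosure L)) ≠ 0 := hsep.ne_zero
  have hr1m : r1.map (algebraMap L (AlgebraicClosure L)) ≠ 0 := by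
    rwa [Ne, Polynomial.map_eq_zero_iff hinj]
  have hm : (q.map (algebraMap L (AlgebraicClosure L))).rootMultiplicity α = 1 :=
    le_antisymm (rootMultiplicity_le_one_of_separable hsep α)
      ((rootMultiplicity_pos hqm0).2 hα)
  have h' : (r0.map (algebraMap L (AlgebraicClosure L))) *
      (r0.map (algebraMap L (AlgebraicClosure L))) =
      (r1.map (algebraMap L (AlgebraicClosure L))) * (r1.map (algebraMap L (AlgebraicClosure L))) *
        q.map (algebraMap L (AlgebraicClosure L)) := by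
    rw [← Polynomial.map_mul, ← Polynomial.map_mul, ← Polynomial.map_mul, ← sq, ← sq, h]
  have hR : (r1.map (algebraMap L (AlgebraicClosure L))) *
      (r1.map (algebraMap L (AlgebraicClosure L))) *
        q.map (algebraMap L (AlgebraicClosure L)) ≠ 0 :=
    mul_ne_zero (mul_ne_zero hr1m hr1m) hqm0
  have h2 := congrArg (rootMultiplicity α) h'
  rw [rootMultiplicity_mul (h' ▸ hR), rootMultiplicity_mul hR,
    rootMultiplicity_mul (mul_ne_zero hr1m hr1m), hm] at h2
  omega

/-- the generic point is generic -/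
lemma ev_injective (hq : q.Separable) (h1 : 1 ≤ q.natDegree) {Ω : Type} [Field Ω] [Algebra L Ω]
    (s u : Ω) (hs : Transcendental L s) (hu : u ^ 2 = aeval s q) :
    Function.Injective (ev q Ω s u hu) := by
  rw [injective_iff_map_eq_zero]
  intro g hg
  obtain ⟨p, rfl⟩ := AdjoinRoot.mk_surjective g
  have hmod : AdjoinRoot.mk (cf q) p = AdjoinRoot.mk (cf q) (p %ₘ cf q) := by
    conv_lhs => rw [← modByMonic_add_div p (cf q)]
    rw [map_add, map_mul, AdjoinRoot.mk_self, zero_mul, add_zero]
  rw [hmod] at hg ⊢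
  have hd : (p %ₘ cf q).natDegree ≤ 1 := by
    have := natDegree_modByMonic_lt p (cf_monic q) (by
      intro h
      have := cf_natDegree q
      rw [h, natDegree_one] at this
      omega)
    rw [cf_natDegree] at this
    omega
  obtain ⟨r1, r0, hr⟩ := exists_eq_X_add_C_of_natDegree_le_one hd
  rw [hr] at hg ⊢
  have e1 : AdjoinRoot.mk (cf q) (C r1 * X + C r0) =
      AdjoinRoot.of (cf q) r1 * AdjoinRoot.root (cf q) + AdjoinRoot.of (cf q) r0 := by
    rw [map_add, map_mul, AdjoinRoot.mk_C, AdjoinRoot.mk_C, AdjoinRoot.mk_X]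
  rw [e1, map_add, map_mul, ev_of, ev_of, ev_root] at hg
  have h2 : aeval s (r0 ^ 2 - r1 ^ 2 * q) = 0 := by
    rw [map_sub, map_mul, map_pow, map_pow, ← hu]
    have : aeval s r0 = - (aeval s r1 * u) := by linear_combination hg
    rw [this]
    ring
  have h3 : r0 ^ 2 - r1 ^ 2 * q = 0 := by
    by_contra hne
    exact hs ⟨_, hne, h2⟩
  have h4 : r1 = 0 := sq_ne hq h1 r0 r1 (sub_eq_zero.1 h3)
  subst h4
  have h5 : r0 = 0 := by
    have : r0 ^ 2 = 0 := by
      have := sub_eq_zero.1 h3
      simpa using this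
    exact pow_eq_zero_iff two_ne_zero |>.1 this
  subst h5
  simp

/-- a nonzero function has finitely many zeros -/
lemma finite_bad [IsDomain (CE q)] (g : CE q) (hg : g ≠ 0) :
    {p : L × L | ∃ hp : p.2 ^ 2 = aeval p.1 q, ev q L p.1 p.2 hp g = 0}.Finite := by
  have hint : Algebra.IsIntegral L[X] (CE q) := by
    have := (cf_monic q).finite_adjoinRoot
    infer_instance
  obtain ⟨N, hN0, c, hc⟩ := ((hint.isIntegral g).isAlgebraic).exists_nonzero_dvd
    (mem_nonZeroDivisors_of_ne_zero hg)
  have hsub : {p : L × L | ∃ hp : p.2 ^ 2 = aeval p.1 q, ev q L p.1 p.2 hp g = 0} ⊆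
      ⋃ t ∈ {x | IsRoot N x}, (fun v : L => (t, v)) '' {v | IsRoot (X ^ 2 - C (aeval t q)) v} := by
    rintro ⟨t, v⟩ ⟨hp, h0⟩
    simp only [Set.mem_iUnion, Set.mem_image]
    refine ⟨t, ?_, v, ?_, rfl⟩
    · have h1 : ev q L t v hp (algebraMap L[X] (CE q) N) = 0 := by
        rw [hc, map_mul]
        have : ev q L t v hp g = 0 := h0
        rw [this, zero_mul]
      rw [AdjoinRoot.algebraMap_eq, ev_of] at h1
      simpa [IsRoot, aeval_def] using h1
    · have hp' : v ^ 2 = aeval t q := hp
      simp [IsRoot, hp']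
  refine Set.Finite.subset (Set.Finite.biUnion (finite_setOfPred_isRoot hN0) fun t _ =>
    Set.Finite.image _ (finite_setOfPred_isRoot ?_)) hsub
  exact (monic_X_pow_sub_C _ two_ne_zero).ne_zero

end ring

/-- piece `CY-6b` -/
theorem transport {K L Ω : Type} [Field K] [Field L] [Field Ω] [Algebra K L] [Algebra K Ω]
    [Algebra L Ω] [IsScalarTower K L Ω] (q : Polynomial L) (hq : q.Separable)
    (h1 : 1 ≤ q.natDegree) (h2 : (2 : L) ≠ 0)
    (hinf : {p : L × L | p.2 ^ 2 = q.eval p.1}.Infinite) (s u : Ω)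
    (hs : Transcendental L s) (hu : u ^ 2 = Polynomial.aeval s q)
    (A : Type) [CommRing A] [Algebra K A] [Algebra.FiniteType K A] (ψ : A →ₐ[K] Ω)
    (hψ : ∀ a, ψ a ∈ IntermediateField.adjoin L {s, u}) (a : A) (ha : ψ a ≠ 0) :
    ∃ φ : A →ₐ[K] L, φ a ≠ 0 := by
  classical
  have hinj := ev_injective hq h1 s u hs hu
  set ι := ev q Ω s u hu with hι
  have hdom : IsDomain (CE q) := hinj.isDomain ι.toRingHom
  -- fractions
  have hadj : ∀ z ∈ Algebra.adjoin L {s, u}, ∃ b, ι b = z := by
    intro z hz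
    have hle : Algebra.adjoin L {s, u} ≤ ι.range := by
      rw [Algebra.adjoin_le_iff]
      rintro w (rfl | hw)
      · refine ⟨AdjoinRoot.of (cf q) X, ?_⟩
        change ev q Ω w u hu _ = w
        rw [ev_of, aeval_X]
      · rw [Set.mem_singleton_iff] at hw
        subst hw
        refine ⟨AdjoinRoot.root (cf q), ?_⟩
        change ev q Ω s w hu _ = w
        rw [ev_root]
    exact hle hz
  have hfrac : ∀ z ∈ IntermediateField.adjoin L {s, u}, ∃ b d : CE q, d ≠ 0 ∧ z * ι d = ι b := by
    intro z hz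
    obtain ⟨r, hr, t, ht, rfl⟩ := IntermediateField.mem_adjoin_iff_div.1 hz
    obtain ⟨b, rfl⟩ := hadj r hr
    obtain ⟨d, rfl⟩ := hadj t ht
    by_cases hd : d = 0
    · refine ⟨0, 1, one_ne_zero, ?_⟩
      rw [hd, map_zero, div_zero, zero_mul]
    · refine ⟨b, d, hd, ?_⟩
      have : ι d ≠ 0 := by
        rw [Ne, map_eq_zero_iff ι hinj]
        exact hd
      field_simp
  obtain ⟨S, hS⟩ := (Algebra.FiniteType.out : (⊤ : Subalgebra K A).FG)
  choose nb nd hnd hnb using fun x : A => hfrac (ψ x) (hψ x)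
  have hea : nb a ≠ 0 := by
    intro h0
    have := hnb a
    rw [h0, map_zero, mul_eq_zero] at this
    rcases this with h | h
    · exact ha h
    · rw [map_eq_zero_iff ι hinj] at h
      exact hnd a h
  set D : CE q := (∏ x ∈ S, nd x) * nb a with hD
  have hD0 : D ≠ 0 := mul_ne_zero (Finset.prod_ne_zero_iff.2 fun x _ => hnd x) hea
  -- a good point
  obtain ⟨p, hp, hpD⟩ : ∃ p : L × L, ∃ hp : p.2 ^ 2 = aeval p.1 q, ev q L p.1 p.2 hp D ≠ 0 := by
    by_contra hcon
    push Not at hcon
    refine hinf ((finite_bad D hD0).subset ?_)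
    intro p hp
    have hp' : p.2 ^ 2 = aeval p.1 q := by
      rw [Polynomial.coe_aeval_eq_eval]
      exact hp
    exact ⟨hp', hcon p hp'⟩
  set η := ev q L p.1 p.2 hp with hη
  -- localisation
  let Loc := Localization.Away D
  have u1 : ∀ y : Submonoid.powers D, IsUnit ((ι.restrictScalars K) (y : CE q)) := by
    rintro ⟨_, n, rfl⟩
    change IsUnit (ι (D ^ n))
    rw [map_pow]
    exact (isUnit_iff_ne_zero.2 (by rw [Ne, map_eq_zero_iff ι hinj]; exact hD0)).pow n
  have u2 : ∀ y : Submonoid.powers D, IsUnit ((η.restrictScalars K) (y : CE q)) := by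
    rintro ⟨_, n, rfl⟩
    change IsUnit (η (D ^ n))
    rw [map_pow]
    exact (isUnit_iff_ne_zero.2 hpD).pow n
  let ιD : Loc →ₐ[K] Ω := IsLocalization.liftAlgHom (M := Submonoid.powers D) u1
  let ηD : Loc →ₐ[K] L := IsLocalization.liftAlgHom (M := Submonoid.powers D) u2
  have hιD : ∀ b : CE q, ιD (algebraMap (CE q) Loc b) = ι b := fun b =>
    IsLocalization.lift_eq u1 b
  have hηD : ∀ b : CE q, ηD (algebraMap (CE q) Loc b) = η b := fun b =>
    IsLocalization.lift_eq u2 b
  have hinjD : Function.Injective ιD := by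
    rw [injective_iff_map_eq_zero]
    intro z hz
    obtain ⟨⟨b, y⟩, hb⟩ := IsLocalization.surj (Submonoid.powers D) z
    have h3 : ιD (algebraMap (CE q) Loc b) = 0 := by
      change z * algebraMap (CE q) Loc (y : CE q) = algebraMap (CE q) Loc b at hb
      rw [← hb, map_mul, hz, zero_mul]
    rw [hιD, map_eq_zero_iff ι hinj] at h3
    change z * algebraMap (CE q) Loc (y : CE q) = algebraMap (CE q) Loc b at hb
    rw [h3, map_zero] at hb
    exact ((IsLocalization.map_units Loc y).mul_left_eq_zero).1 hb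
  have hrange : ∀ x : A, ψ x ∈ ιD.range := by
    intro x
    have hx : x ∈ Algebra.adjoin K (S : Set A) := by rw [hS]; exact Algebra.mem_top
    have hle : (Algebra.adjoin K (S : Set A)).map ψ ≤ ιD.range := by
      rw [AlgHom.map_adjoin, Algebra.adjoin_le_iff]
      rintro _ ⟨y, hy, rfl⟩
      have hy' : y ∈ S := hy
      have hdvd : nd y ∣ D := (Finset.dvd_prod_of_mem nd hy').mul_right _
      have hun : IsUnit (algebraMap (CE q) Loc (nd y)) := by
        have hunD : IsUnit (algebraMap (CE q) Loc D) :=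
          IsLocalization.map_units Loc (⟨D, 1, pow_one D⟩ : Submonoid.powers D)
        exact isUnit_of_dvd_unit (map_dvd _ hdvd) hunD
      obtain ⟨w, hw⟩ := hun
      refine ⟨algebraMap (CE q) Loc (nb y) * ((w⁻¹ : Locˣ) : Loc), ?_⟩
      have h4 : ι (nd y) ≠ 0 := by
        rw [Ne, map_eq_zero_iff ι hinj]; exact hnd y
      have h5 : ιD ((w⁻¹ : Locˣ) : Loc) * ι (nd y) = 1 := by
        rw [← hιD, ← map_mul, ← hw, Units.inv_mul, map_one]
      change ιD _ = ψ y
      rw [map_mul, hιD, ← hnb y]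
      calc ψ y * ι (nd y) * ιD ((w⁻¹ : Locˣ) : Loc)
          = ψ y * (ιD ((w⁻¹ : Locˣ) : Loc) * ι (nd y)) := by ring
        _ = ψ y := by rw [h5, mul_one]
    exact hle ⟨x, hx, rfl⟩
  let e := AlgEquiv.ofInjective ιD hinjD
  let φ : A →ₐ[K] L := (ηD.comp (e.symm : ιD.range →ₐ[K] Loc)).comp
    (ψ.codRestrict ιD.range hrange)
  refine ⟨φ, ?_⟩
  set y : Loc := e.symm (ψ.codRestrict ιD.range hrange a) with hy
  have hy1 : ιD y = ψ a := by
    have h6 : e y = ψ.codRestrict ιD.range hrange a := e.apply_symm_apply _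
    have h7 := congrArg (Subtype.val) h6
    exact h7
  have hy2 : y * algebraMap (CE q) Loc (nd a) = algebraMap (CE q) Loc (nb a) := by
    apply hinjD
    rw [map_mul, hιD, hιD, hy1, hnb a]
  have hy3 : ηD y * η (nd a) = η (nb a) := by
    rw [← hηD, ← hηD, ← map_mul, hy2]
  have hy4 : η (nb a) ≠ 0 := by
    intro h0
    apply hpD
    rw [hD, map_mul, h0, mul_zero]
  change ηD y ≠ 0
  intro h0
  rw [h0, zero_mul] at hy3
  exact hy4 hy3.symm

end Pool.Agent.Helper95.CY
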